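import Pool.Agent.Helper230.DecB

/-!
# Decomposability by systems of bounded size is decidable

`result` says: (1) it is decidable, given a finite automaton and a number `s`, whether the
recognised language lies in a simultaneous sequential and parallel system with at most `s`
members; (2) hence the decomposable languages form a recursively enumerable set; and (3)
decomposability is decidable if and only if some computable function bounds the size of a smallest
system of every decomposable language.
-/

namespace Pool.Agent.Results.MP_e695f0_lc.BoundedDecidable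

/-- A coded deterministic automaton `(k, t, F)`: letters are the numbers `< k`, states are natural
numbers, the start state is `0`, reading the letter `a` in state `q` leads to entry `q * k + a`
of the list `t` (or to `0` if the list is too short), and `F` lists the accepting states. Every
regular language over `{0, ..., k-1}` has such a code. -/
abbrev Code : Type := ℕ × List ℕ × List ℕ

/-- The language recognised by a coded automaton. -/
def lang (c : Code) : Language ℕ :=
  {w : List ℕ | (∀ a ∈ w, a < c.1) ∧
    w.foldl (fun q a => c.2.1.getD (q * c.1 + a) 0) 0 ∈ c.2.2}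

/-- `w` is a shuffle of `u` and `v`: some marking of the positions of `w` picks out `u`, and the
unmarked positions read `v`. -/
def IsShuffle (w u v : List ℕ) : Prop :=
  ∃ b : List Bool, b.length = w.length ∧
    ((w.zip b).filter (fun x => x.2)).map Prod.fst = u ∧
    ((w.zip b).filter (fun x => !x.2)).map Prod.fst = v

/-- The relation `R` on words is a finite union of products `L × M` with `L, M ∈ S`. -/
def FiniteUnionOver (S : Set (Language ℕ)) (R : List ℕ → List ℕ → Prop) : Prop :=
  ∃ P : Set (Language ℕ × Language ℕ), P.Finite ∧ (∀ p ∈ P, p.1 ∈ S ∧ p.2 ∈ S) ∧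
    ∀ u v : List ℕ, R u v ↔ ∃ p ∈ P, u ∈ p.1 ∧ v ∈ p.2

/-- The finite set `S` of languages is simultaneously a sequential system (every `τ(L)`, `L ∈ S`,
is a finite union of products over `S`) and a parallel system (the same for `σ(L)`). -/
def IsSystem (S : Set (Language ℕ)) : Prop :=
  S.Finite ∧ ∀ L ∈ S,
    FiniteUnionOver S (fun u v => u ++ v ∈ L) ∧
    FiniteUnionOver S (fun u v => ∃ w ∈ L, IsShuffle w u v)

/-- `K` is decomposable. -/
def Decomposable (K : Language ℕ) : Prop :=
  ∃ S : Set (Language ℕ), IsSystem S ∧ K ∈ S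

/-- `K` is a member of a system with at most `s` languages. -/
def DecomposableIn (s : ℕ) (K : Language ℕ) : Prop :=
  ∃ S : Set (Language ℕ), IsSystem S ∧ S.ncard ≤ s ∧ K ∈ S

open Pool.Agent.Helper230.Dec

theorem fu_iff (S : Set (Language ℕ)) (L : Language ℕ) :
      FiniteUnionOver S (fun u v => ∃ w ∈ L, IsShuffle w u v) ↔
      FiniteUnionOver S (fun u v => ∃ w ∈ L, Sh w u v) := by
  have : (fun u v => ∃ w ∈ L, IsShuffle w u v) = (fun u v => ∃ w ∈ L, Sh w u v) := by
    funext u v
    apply propext
    constructor
    · rintro ⟨w, hw, hs⟩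
      exact ⟨w, hw, (sh_iff w u v).2 hs⟩
    · rintro ⟨w, hw, hs⟩
      exact ⟨w, hw, (sh_iff w u v).1 hs⟩
  rw [this]

theorem decIn_iff (s : ℕ) (c : Code) : DecomposableIn s (lang c) ↔ IsDecB c s := by
  constructor
  · rintro ⟨S, ⟨hf, hS⟩, hs, hK⟩
    exact ⟨S, hf, hs, hK, fun L hL => ⟨(hS L hL).1, (fu_iff S L).1 (hS L hL).2⟩⟩
  · rintro ⟨S, hf, hs, hK, hS⟩
    exact ⟨S, ⟨hf, fun L hL => ⟨(hS L hL).1, (fu_iff S L).2 (hS L hL).2⟩⟩, hs, hK⟩

theorem dec_iff_exists (K : Language ℕ) : Decomposable K ↔ ∃ s, DecomposableIn s K :=
  ⟨fun ⟨S, h, hK⟩ => ⟨S.ncard, S, h, le_rfl, hK⟩, fun ⟨_, S, h, _, hK⟩ => ⟨S, h, hK⟩⟩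

theorem decIn_mono {s t : ℕ} (h : s ≤ t) {K : Language ℕ} (hK : DecomposableIn s K) :
    DecomposableIn t K := by
  obtain ⟨S, h1, h2, h3⟩ := hK
  exact ⟨S, h1, h2.trans h, h3⟩

theorem result :
    ComputablePred (fun x : Code × ℕ => DecomposableIn x.2 (lang x.1)) ∧
    REPred (fun c : Code => Decomposable (lang c)) ∧
    (ComputablePred (fun c : Code => Decomposable (lang c)) ↔
      ∃ f : Code → ℕ, Computable f ∧
        ∀ c : Code, Decomposable (lang c) → DecomposableIn (f c) (lang c)) := by
  classical
  have hA : ComputablePred (fun x : Code × ℕ => DecomposableIn x.2 (lang x.1)) :=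
    decB.of_eq (fun x => (decIn_iff x.2 x.1).symm)
  have hdec : Computable fun x : Code × ℕ => decide (DecomposableIn x.2 (lang x.1)) := hA.decide
  refine ⟨hA, ?_, ?_, ?_⟩
  · have h3 : Partrec fun c : Code =>
        Nat.rfind fun n => Part.some (decide (DecomposableIn n (lang c))) :=
      Partrec.rfind (Computable.partrec hdec)
    refine (Partrec.dom_re h3).of_eq ?_
    intro c
    rw [dec_iff_exists]
    refine Iff.trans Nat.rfind_dom ?_
    simp
  · intro h
    have hex : ∀ c : Code, ∃ n, (¬ Decomposable (lang c)) ∨ DecomposableIn n (lang c) := by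
      intro c
      by_cases hc : Decomposable (lang c)
      · obtain ⟨s, hs⟩ := (dec_iff_exists _).1 hc
        exact ⟨s, Or.inr hs⟩
      · exact ⟨0, Or.inl hc⟩
    refine ⟨fun c => Nat.find (hex c), ?_, ?_⟩
    · refine Computable.find
        (P := fun c n => (¬ Decomposable (lang c)) ∨ DecomposableIn n (lang c)) ?_ hex
      refine ComputablePred.computable_iff.2 ⟨fun x : Code × ℕ =>
        (!(decide (Decomposable (lang x.1)))) || decide (DecomposableIn x.2 (lang x.1)), ?_, ?_⟩
      · exact Primrec.or.to_comp.comp
          (Primrec.not.to_comp.comp (h.decide.comp Computable.fst)) hdec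
      · funext x
        simp
    · intro c hc
      rcases Nat.find_spec (hex c) with h1 | h1
      · exact absurd hc h1
      · exact h1
  · rintro ⟨f, hf, h⟩
    refine ComputablePred.computable_iff.2
      ⟨fun c => decide (DecomposableIn (f c) (lang c)), ?_, ?_⟩
    · exact hdec.comp (Computable.pair Computable.id hf)
    · funext c
      apply propext
      simp only [decide_eq_true_eq]
      exact ⟨fun hc => h c hc, fun hc => (dec_iff_exists _).2 ⟨_, hc⟩⟩

end Pool.Agent.Results.MP_e695f0_lc.BoundedDecidable
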