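import Pool.Agent.Helper230.DecM

/-!
# Decomposability of regular languages is recursively enumerable
-/

namespace Pool.Agent.Results.MP_e695f0_lc.SemiDecidable

/-- A coded deterministic automaton `(k, t, F)`: letters are the numbers `< k`, states are natural
numbers, the start state is `0`, reading the letter `a` in state `q` leads to entry `q * k + a`
of the list `t` (or to `0` if the list is too short), and `F` lists the accepting states. Every
regular language over `{0, ..., k-1}` has such a code. -/
abbrev Code : Type := ℕ × List ℕ × List ℕ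

/-- The language recognised by a coded automaton. -/
def lang (c : Code) : Language ℕ :=
  {w : List ℕ | (∀ a ∈ w, a < c.1) ∧
    w.foldl (fun q a => c.2.1.getD (q * c.1 + a) 0) 0 ∈ c.2.2}

/-- `w` is a shuffle of `u` and `v`: some marking of the positions of `w` picks out `u`, and the
unmarked positions read `v`. -/
def IsShuffle (w u v : List ℕ) : Prop :=
  ∃ b : List Bool, b.length = w.length ∧
    ((w.zip b).filter (fun x => x.2)).map Prod.fst = u ∧
    ((w.zip b).filter (fun x => !x.2)).map Prod.fst = v

/-- The relation `R` on words is a finite union of products `L × M` with `L, M ∈ S`. -/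
def FiniteUnionOver (S : Set (Language ℕ)) (R : List ℕ → List ℕ → Prop) : Prop :=
  ∃ P : Set (Language ℕ × Language ℕ), P.Finite ∧ (∀ p ∈ P, p.1 ∈ S ∧ p.2 ∈ S) ∧
    ∀ u v : List ℕ, R u v ↔ ∃ p ∈ P, u ∈ p.1 ∧ v ∈ p.2

/-- `K` is decomposable: it lies in a finite set `S` of languages that is both a sequential system
(every `τ(L)`, `L ∈ S`, is a finite union of products over `S`) and a parallel system (the same
for `σ(L)`). -/
def Decomposable (K : Language ℕ) : Prop :=
  ∃ S : Set (Language ℕ), S.Finite ∧ K ∈ S ∧ ∀ L ∈ S,
    FiniteUnionOver S (fun u v => u ++ v ∈ L) ∧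
    FiniteUnionOver S (fun u v => ∃ w ∈ L, IsShuffle w u v)

open Pool.Agent.Helper230.Dec in
/-- The set of automata whose language is decomposable is recursively enumerable. -/
theorem result : REPred (fun c : Code => Decomposable (lang c)) := by
  refine re_dec.of_eq ?_
  intro c
  have h : ∀ (S : Set (Language ℕ)) (L : Language ℕ),
      FiniteUnionOver S (fun u v => ∃ w ∈ L, IsShuffle w u v) ↔
      FiniteUnionOver S (fun u v => ∃ w ∈ L, Sh w u v) := by
    intro S L
    have : (fun u v => ∃ w ∈ L, IsShuffle w u v) = (fun u v => ∃ w ∈ L, Sh w u v) := by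
      funext u v
      apply propext
      constructor
      · rintro ⟨w, hw, hs⟩
        exact ⟨w, hw, (sh_iff w u v).2 hs⟩
      · rintro ⟨w, hw, hs⟩
        exact ⟨w, hw, (sh_iff w u v).1 hs⟩
    rw [this]
  constructor
  · rintro ⟨S, hf, hK, hS⟩
    exact ⟨S, hf, hK, fun L hL => ⟨(hS L hL).1, (h S L).2 (hS L hL).2⟩⟩
  · rintro ⟨S, hf, hK, hS⟩
    exact ⟨S, hf, hK, fun L hL => ⟨(hS L hL).1, (h S L).1 (hS L hL).2⟩⟩

end Pool.Agent.Results.MP_e695f0_lc.SemiDecidable
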